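import Pool.Agent.H39.Ht.Sp

/-! The heights as regulators: the determinants. -/

set_option autoImplicit false
set_option linter.unusedSectionVars false

namespace Pool.Agent.H39.Ht

open Module Pool.Agent.Q5.RG
open scoped Classical

section
variable {Γ : Type} [Group Γ] {M : Heights Γ}

theorem η_inl (l : (dualQ M.W).car) : (M.sp).η.app (inlG l) = inlG (toRG l) := by
  refine prodG_ext rfl ?_
  exact map_zero M.η.map

theorem η_inr (b : M.B.car) : (M.sp).η.app (inrG b) = inrG (M.η.app b) := by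
  refine prodG_ext ?_ rfl
  exact map_zero (toRG (A := M.W))

theorem φ_eq (f : M.Φ.car) : (M.sp).φ.app f = inrG (M.φ.app f) := rfl

theorem π_eq (x : (prodG (dualR M.W) M.U).car) : (M.sp).π.app x = fstG x := rfl

/-- the functional of a cycle -/
noncomputable def htR (M : Heights Γ) (v : M.V.car) : (dualR M.W).car := M.ht v

theorem evR_htR (v : M.V.car) (w : M.W.car) : evR w (htR M v) = M.ht v w := rfl

theorem r_eq (x : M.V.car) : (M.sp).r.app x = htR M x := rfl

theorem sp_comp (h : M.Comp) : (M.sp).Comp where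
  onto := fun d => ⟨inlG d, rfl⟩
  indep := by
    intro κ _ w hw
    refine indep_prod (B₁ := (dualQ M.W).car) (B₂ := M.B.car) (U₁ := (dualR M.W).car)
      (U₂ := M.U.car) toRG M.η.map ?_ (fun κ _ w hw => h.indep κ w hw) hw
    intro κ' _ l hl
    rw [Fintype.linearIndependent_iff]
    intro c hc i
    obtain ⟨w, hw⟩ := exists_dual (W := M.W.car) (l := l) hl i
    have h1 := congrArg (evR w) hc
    rw [map_sum, map_zero, Finset.sum_eq_single i (fun j _ hj => by
      rw [map_smul, evR_toRG]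
      have h2 : evQ w (l j) = 0 := by
        refine (hw j).trans ?_
        rw [if_neg hj]
      rw [h2, Rat.cast_zero, smul_zero]) (fun h => absurd (Finset.mem_univ _) h), map_smul,
      evR_toRG] at h1
    have h2 : evQ w (l i) = 1 := by
      refine (hw i).trans ?_
      rw [if_pos rfl]
    rw [h2, Rat.cast_one, smul_eq_mul, mul_one] at h1
    exact h1

theorem sp_goodAt (h : M.Comp) {Δ : Subgroup Γ} (hΔ : M.GoodAt Δ)
    [FiniteDimensional ℚ (inv M.W.act Δ)] : (M.sp).GoodAt Δ where
  fin := by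
    obtain ⟨q, b, hb⟩ := hΔ.betti
    obtain ⟨l, hl, -⟩ := exists_dual_basis h.cycles
      (GVec.isBasis_basis (A := M.W) (finBasis ℚ (inv M.W.act Δ)))
    have h1 := isBasis_prod hl hb
    refine ⟨_, _ ∘ finSumFinEquiv.symm, h1.1.comp _ finSumFinEquiv.symm.injective, fun x => ?_⟩
    rw [Set.range_comp, finSumFinEquiv.symm.surjective.range_eq, Set.image_univ]
    exact h1.2 x
  span := by
    intro u hu
    obtain ⟨l, hl, hd⟩ := exists_dual_basis h.cycles
      (GVec.isBasis_basis (A := M.W) (finBasis ℚ (inv M.W.act Δ)))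
    have hu1 := (prodG_fix.1 hu).1
    have hu2 := (prodG_fix.1 hu).2
    have e1 := real_functional h.cycles
      (GVec.isBasis_basis (A := M.W) (finBasis ℚ (inv M.W.act Δ))) hl hd hu1
    have e2 := hΔ.span _ hu2
    have s1 : inlG (fstG u) ∈ Submodule.span ℝ ((M.sp).η.app '' {b | (M.sp).B.Fix Δ b}) := by
      rw [e1, map_sum]
      refine Submodule.sum_mem _ fun j _ => ?_
      rw [map_smul]
      exact Submodule.smul_mem _ _ (Submodule.subset_span
        ⟨inlG (l j), prodG_fix.2 ⟨mem_basis hl j, fix_zero _ _⟩, η_inl _⟩)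
    have s2 : inrG (sndG u) ∈ Submodule.span ℝ ((M.sp).η.app '' {b | (M.sp).B.Fix Δ b}) := by
      have hle : Submodule.span ℝ (M.η.app '' {b | M.B.Fix Δ b}) ≤
          (Submodule.span ℝ ((M.sp).η.app '' {b | (M.sp).B.Fix Δ b})).comap inrG := by
        rw [Submodule.span_le]
        rintro _ ⟨b, hb, rfl⟩
        exact Submodule.subset_span ⟨inrG b, prodG_fix.2 ⟨fix_zero _ _, hb⟩, η_inr b⟩
      exact hle e2
    rw [decomp u]
    exact Submodule.add_mem _ s1 s2
  deR := by
    intro u hu hπ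
    have hu2 := (prodG_fix.1 hu).2
    have e2 := hΔ.deR _ hu2
    have hle : Submodule.span ℝ (M.φ.app '' {f | M.Φ.Fix Δ f}) ≤
        (Submodule.span ℝ ((M.sp).φ.app '' {f | (M.sp).Φ.Fix Δ f})).comap inrG := by
      rw [Submodule.span_le]
      rintro _ ⟨f, hf, rfl⟩
      exact Submodule.subset_span ⟨f, hf, rfl⟩
    have h4 : fstG u = 0 := hπ
    rw [decomp u, h4, map_zero, zero_add]
    exact hle e2

/-- from heights to regulators -/
theorem to_sp (h : M.Comp) {Δ : Subgroup Γ} {p : ℕ} {c : ℝ} (hc : M.IsReg Δ p c) :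
    (M.sp).IsReg Δ p c := by
  obtain ⟨h0, q, a, a', f, b, P, ha, ha', hf, hb, hP, hd⟩ := hc
  obtain ⟨l, hl, hld⟩ := exists_dual_basis h.cycles ha'
  let H : Matrix (Fin p) (Fin p) ℝ := Matrix.of fun i j => M.ht (a i) (a' j)
  have hfix : ∀ i, (dualR M.W).Fix Δ (htR M (a i)) := by
    intro i
    refine dualR_fix.2 fun g hg w => ?_
    have h1 := M.ht_inv g (a i) w
    rw [mem_basis ha i g hg] at h1
    exact h1
  refine ⟨h0, q, a, f, _, fun i => inlG (htR M (a i)),
    Matrix.fromBlocks H.transpose 0 0 P, ha, hf, isBasis_prod hl hb, fun i => ⟨?_, rfl⟩, ?_, ?_⟩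
  · exact prodG_fix.2 ⟨hfix i, fix_zero _ _⟩
  · intro m
    rw [Fintype.sum_sum_type]
    simp only [Sum.elim_inl, Sum.elim_inr]
    rcases m with m | m
    · rw [Sum.elim_inl]
      have z2 : ∑ j : Fin q, Matrix.fromBlocks H.transpose 0 0 P (Sum.inr j) (Sum.inl m) •
          (M.sp).η.app (inrG (b j)) = 0 := Finset.sum_eq_zero fun j _ => by
        rw [Matrix.fromBlocks_apply₂₁, Matrix.zero_apply, zero_smul]
      rw [z2, add_zero]
      have e1 := real_functional h.cycles ha' hl hld (hfix m)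
      conv_lhs => rw [e1, map_sum]
      refine Finset.sum_congr rfl fun j _ => ?_
      rw [map_smul, η_inl]
      rfl
    · rw [Sum.elim_inr]
      have z1 : ∑ j : Fin p, Matrix.fromBlocks H.transpose 0 0 P (Sum.inl j) (Sum.inr m) •
          (M.sp).η.app (inlG (l j)) = 0 := Finset.sum_eq_zero fun j _ => by
        rw [Matrix.fromBlocks_apply₁₂, Matrix.zero_apply, zero_smul]
      have hPm : M.φ.app (f m) = ∑ j, P j m • M.η.app (b j) := hP m
      rw [z1, zero_add, φ_eq, hPm, map_sum]
      refine Finset.sum_congr rfl fun j _ => ?_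
      rw [map_smul]
      exact congrArg (P j m • ·) (η_inr (M := M) (b j)).symm
  · rw [Matrix.det_fromBlocks_zero₁₂, Matrix.det_transpose]
    exact hd

/-- from regulators to heights -/
theorem of_sp (h : M.Comp) {Δ : Subgroup Γ} (hΔ : M.GoodAt Δ)
    [FiniteDimensional ℚ (inv M.W.act Δ)] {p : ℕ} {c : ℝ} (hc : (M.sp).IsReg Δ p c) :
    ∃ t : ℚ, t ≠ 0 ∧ M.IsReg Δ p (t * c) := by
  obtain ⟨h0, q, a, f, b, x, C, ha, hf, hb, hx, hC, hd⟩ := hc
  obtain ⟨q', b'', hb''⟩ := hΔ.betti
  obtain ⟨p', a'', ha''⟩ : ∃ (p' : ℕ) (a'' : Fin p' → M.W.car), M.W.IsBasis Δ a'' :=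
    ⟨_, _, GVec.isBasis_basis (A := M.W) (finBasis ℚ (inv M.W.act Δ))⟩
  obtain ⟨l, hl, hld⟩ := exists_dual_basis h.cycles ha''
  have hβ := isBasis_prod hl hb''
  set β : Fin p' ⊕ Fin q' → (prodG (dualQ M.W) M.B).car := Sum.elim
    (fun j => inlG (l j)) (fun j => inrG (b'' j)) with hβdef
  have hdet : C.det ≠ 0 := by rw [hd]; exact h0
  have hbi : LinearIndependent ℝ fun m => (M.sp).η.app (b m) := (sp_comp h).indep _ b hb.1
  have hb2 : LinearIndependent ℝ fun j => M.η.app (b'' j) := h.indep _ b'' hb''.1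
  -- the images of `f` are independent
  have hfi : LinearIndependent ℝ fun j => M.φ.app (f j) := by
    rw [Fintype.linearIndependent_iff]
    intro c' hc'
    let v : Fin p ⊕ Fin q → ℝ := Sum.elim 0 c'
    have h1 : ∑ m, v m • (Sum.elim x (fun l => (M.sp).φ.app (f l)) m) = 0 := by
      rw [Fintype.sum_sum_type]
      have z1 : ∑ j : Fin p, v (Sum.inl j) • (Sum.elim x (fun l => (M.sp).φ.app (f l)) (Sum.inl j)) =
          0 := Finset.sum_eq_zero fun j _ => zero_smul _ _
      rw [z1, zero_add]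
      change ∑ j : Fin q, c' j • inrG (M.φ.app (f j)) = 0
      simp only [← map_smul]
      rw [← map_sum, hc', map_zero]
    have h2 : ∑ k, (C.mulVec v k) • (M.sp).η.app (b k) = 0 := by
      rw [← h1]
      simp only [Matrix.mulVec, dotProduct, Finset.sum_smul]
      rw [Finset.sum_comm]
      refine Finset.sum_congr rfl fun m _ => ?_
      rw [hC m, Finset.smul_sum]
      refine Finset.sum_congr rfl fun k _ => ?_
      rw [smul_smul, mul_comm]
    have h3 : C.mulVec v = 0 := funext fun k =>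
      (Fintype.linearIndependent_iff.1 hbi) (fun k => C.mulVec v k) h2 k
    have h4 := Matrix.eq_zero_of_mulVec_eq_zero hdet h3
    intro j
    exact congrFun h4 (Sum.inr j)
  -- the spans
  have hspan : Submodule.span ℝ (Set.range fun j => M.η.app (b'' j)) =
      Submodule.span ℝ (Set.range fun j => M.φ.app (f j)) := by
    have fixη : ∀ j, M.U.Fix Δ (M.η.app (b'' j)) := by
      intro j g hg
      have h1 := M.η.comm g (b'' j)
      rw [mem_basis hb'' j g hg] at h1
      exact h1.symm
    have fixφ : ∀ j, M.U.Fix Δ (M.φ.app (f j)) := by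
      intro j g hg
      have h1 := M.φ.comm g (f j)
      rw [mem_basis hf j g hg] at h1
      exact h1.symm
    apply le_antisymm
    · rw [Submodule.span_le]
      rintro _ ⟨j, rfl⟩
      refine (Submodule.span_le.2 ?_) (hΔ.deR _ (fixη j))
      rintro _ ⟨y, hy, rfl⟩
      have hy2 : y ∈ Submodule.span ℚ (Set.range f) := (hf.2 y).2 hy
      obtain ⟨c', rfl⟩ := (Submodule.mem_span_range_iff_exists_fun ℚ).1 hy2
      change M.φ.map _ ∈ _
      rw [map_sum]
      refine Submodule.sum_mem _ fun j _ => ?_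
      rw [LinearMap.map_smulₛₗ]
      exact Submodule.smul_mem _ _ (Submodule.subset_span ⟨j, rfl⟩)
    · rw [Submodule.span_le]
      rintro _ ⟨j, rfl⟩
      refine (Submodule.span_le.2 ?_) (hΔ.span _ (fixφ j))
      rintro _ ⟨y, hy, rfl⟩
      have hy2 : y ∈ Submodule.span ℚ (Set.range b'') := (hb''.2 y).2 hy
      obtain ⟨c', rfl⟩ := (Submodule.mem_span_range_iff_exists_fun ℚ).1 hy2
      change M.η.map _ ∈ _
      rw [map_sum]
      refine Submodule.sum_mem _ fun j _ => ?_
      rw [LinearMap.map_smulₛₗ]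
      exact Submodule.smul_mem _ _ (Submodule.subset_span ⟨j, rfl⟩)
  have hq : q' = q := by
    have h1 := finrank_span_eq_card hb2
    have h2 := finrank_span_eq_card hfi
    rw [hspan, h2, Fintype.card_fin, Fintype.card_fin] at h1
    exact h1.symm
  obtain ⟨bb, hbb⟩ := GVec.exists_basis hb
  obtain ⟨ββ, hββ⟩ := GVec.exists_basis hβ
  have hp : p' = p := by
    have h1 := Fintype.card_congr (bb.indexEquiv ββ)
    rw [Fintype.card_sum, Fintype.card_sum, Fintype.card_fin, Fintype.card_fin, Fintype.card_fin,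
      Fintype.card_fin] at h1
    omega
  subst hq hp
  set T : Matrix (Fin p' ⊕ Fin q') (Fin p' ⊕ Fin q') ℚ := ββ.toMatrix bb with hT
  have hTdet : T.det ≠ 0 := by
    intro h1
    have h2 := congrArg Matrix.det (Basis.toMatrix_mul_toMatrix_flip ββ bb)
    rw [Matrix.det_mul, Matrix.det_one, ← hT, h1, zero_mul] at h2
    exact zero_ne_one h2
  have hbT : ∀ k, b k = ∑ m, T m k • β m := by
    intro k
    have h1 := congrArg (fun z : inv (M.sp).B.act Δ => (z : (M.sp).B.car)) (ββ.sum_repr (bb k))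
    simp only [Submodule.coe_sum, Submodule.coe_smul] at h1
    rw [← hbb k, ← h1]
    refine Finset.sum_congr rfl fun m _ => ?_
    rw [hββ m]
    rfl
  let E : Matrix (Fin p' ⊕ Fin q') (Fin p' ⊕ Fin q') ℝ := T.map (algebraMap ℚ ℝ) * C
  have hEdet : E.det = (T.det : ℝ) * c := by
    change (T.map (algebraMap ℚ ℝ) * C).det = _
    rw [Matrix.det_mul, hd]
    congr 1
    exact ((algebraMap ℚ ℝ).map_det T).symm
  have hyE : ∀ m, Sum.elim x (fun l => (M.sp).φ.app (f l)) m =
      ∑ j, E j m • (M.sp).η.app (β j) := by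
    intro m
    rw [hC m]
    have h1 : ∀ k, (M.sp).η.app (b k) = ∑ j, (T j k : ℝ) • (M.sp).η.app (β j) := by
      intro k
      rw [hbT k]
      change (M.sp).η.map _ = _
      rw [map_sum]
      refine Finset.sum_congr rfl fun j _ => ?_
      rw [LinearMap.map_smulₛₗ]
      rfl
    simp only [E, Matrix.mul_apply, Finset.sum_smul]
    rw [Finset.sum_comm]
    refine Finset.sum_congr rfl fun k _ => ?_
    rw [h1 k, Finset.smul_sum]
    refine Finset.sum_congr rfl fun j _ => ?_
    rw [smul_smul, Matrix.map_apply, mul_comm]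
    rfl
  -- the components
  have hyE' : ∀ m, Sum.elim x (fun l => (M.sp).φ.app (f l)) m =
      ∑ j, E (Sum.inl j) m • inlG (toRG (l j)) + ∑ j, E (Sum.inr j) m • inrG (M.η.app (b'' j)) := by
    intro m
    rw [hyE m, Fintype.sum_sum_type]
    refine congrArg₂ (· + ·) (Finset.sum_congr rfl fun j _ => ?_) (Finset.sum_congr rfl fun j _ => ?_)
    · exact congrArg (E (Sum.inl j) m • ·) (η_inl (l j))
    · exact congrArg (E (Sum.inr j) m • ·) (η_inr (b'' j))
  have hfst : ∀ m i, evR (a'' i) (fstG (Sum.elim x (fun l => (M.sp).φ.app (f l)) m)) =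
      E (Sum.inl i) m := by
    intro m i
    rw [hyE' m, map_add, map_sum, map_sum]
    simp only [map_smul, fst_inl, fst_inr, smul_zero, Finset.sum_const_zero, add_zero]
    rw [map_sum, Finset.sum_eq_single i
      (fun j _ hj => by rw [map_smul, evR_toRG, hld, if_neg (Ne.symm hj), Rat.cast_zero, smul_zero])
      (fun h => absurd (Finset.mem_univ _) h), map_smul, evR_toRG, hld, if_pos rfl, smul_eq_mul,
      Rat.cast_one, mul_one]
  have hsnd : ∀ j, M.φ.app (f j) = ∑ i, E (Sum.inr i) (Sum.inr j) • M.η.app (b'' i) := by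
    intro j
    have h1 := congrArg sndG (hyE' (Sum.inr j))
    rw [map_add, map_sum, map_sum] at h1
    simp only [map_smul, snd_inl, snd_inr, smul_zero, Finset.sum_const_zero, zero_add] at h1
    exact h1
  refine ⟨T.det, hTdet, mul_ne_zero (by exact_mod_cast hTdet) h0, q', a, a'', f, b'',
    Matrix.of fun i j => E (Sum.inr i) (Sum.inr j), ha, ha'', hf, hb'', fun j => hsnd j, ?_⟩
  rw [← hEdet]
  have hblock : E = Matrix.fromBlocks (Matrix.of fun i j => M.ht (a i) (a'' j)).transpose 0
      (Matrix.of fun i j => E (Sum.inr i) (Sum.inl j))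
      (Matrix.of fun i j => E (Sum.inr i) (Sum.inr j)) := by
    ext i j
    rcases i with i | i <;> rcases j with j | j
    · rw [Matrix.fromBlocks_apply₁₁, Matrix.transpose_apply, Matrix.of_apply, ← hfst (Sum.inl j) i]
      have h1 : fstG (x j) = htR M (a j) := (hx j).2
      exact congrArg (evR (a'' i)) h1
    · rw [Matrix.fromBlocks_apply₁₂, ← hfst (Sum.inr j) i]
      rfl
    · rfl
    · rfl
  conv_rhs => rw [hblock]
  rw [Matrix.det_fromBlocks_zero₁₂, Matrix.det_transpose]

end

end Pool.Agent.H39.Ht
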