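import Mathlib

/-! Invariant functionals of representations all orbits of which are finite. -/

set_option autoImplicit false
set_option linter.unusedSectionVars false

namespace Pool.Agent.H39.Ht

open Module
open scoped Classical

section
variable {Γ W : Type} [Group Γ] [AddCommGroup W] [Module ℚ W] (ρ : Representation ℚ Γ W)
  (Δ : Subgroup Γ)

/-- the invariants of `Δ` -/
def fx : Submodule ℚ W where
  carrier := {w | ∀ g ∈ Δ, ρ g w = w}
  zero_mem' := fun g _ => map_zero _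
  add_mem' := fun {a b} ha hb g hg => by rw [map_add, ha g hg, hb g hg]
  smul_mem' := fun c x hx g hg => by rw [map_smul, hx g hg]

theorem mem_fx {w : W} : w ∈ fx ρ Δ ↔ ∀ g ∈ Δ, ρ g w = w := Iff.rfl

/-- the elements `g w - w` -/
def aug : Submodule ℚ W := Submodule.span ℚ {x | ∃ g ∈ Δ, ∃ w, x = ρ g w - w}

theorem rho_mul (g h : Γ) (w : W) : ρ (g * h) w = ρ g (ρ h w) := by rw [map_mul]; rfl

/-- the orbit of `w` -/
def orb (w : W) : Set W := {x | ∃ g ∈ Δ, x = ρ g w}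

variable {ρ Δ}

theorem orb_self (w : W) : w ∈ orb ρ Δ w := ⟨1, Δ.one_mem, by rw [map_one]; rfl⟩

theorem orb_stable {w x : W} (hx : x ∈ orb ρ Δ w) {g : Γ} (hg : g ∈ Δ) : ρ g x ∈ orb ρ Δ w := by
  obtain ⟨h, hh, rfl⟩ := hx
  exact ⟨g * h, Δ.mul_mem hg hh, (rho_mul ρ g h w).symm⟩

theorem rho_inj (g : Γ) : Function.Injective (ρ g) := by
  intro x y hxy
  have h1 : ρ g⁻¹ (ρ g x) = ρ g⁻¹ (ρ g y) := congrArg _ hxy
  rw [← rho_mul, ← rho_mul, inv_mul_cancel, map_one] at h1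
  exact h1

/-- a finite stable set is permuted -/
theorem perm_sum {M : Type} [AddCommMonoid M] (T : Finset W) {g : Γ}
    (hT : ∀ x ∈ T, ρ g x ∈ T) (f : W → M) : ∑ x ∈ T, f (ρ g x) = ∑ x ∈ T, f x := by
  have h1 : T.image (ρ g) = T := by
    apply Finset.eq_of_subset_of_card_le
    · intro y hy
      obtain ⟨x, hx, rfl⟩ := Finset.mem_image.1 hy
      exact hT x hx
    · rw [Finset.card_image_of_injective _ (rho_inj g)]
  conv_rhs => rw [← h1]
  rw [Finset.sum_image fun x _ y _ h => rho_inj g h]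

theorem sup_top (h : ∀ w, (orb ρ Δ w).Finite) : fx ρ Δ ⊔ aug ρ Δ = ⊤ := by
  rw [eq_top_iff]
  intro w _
  set O := (h w).toFinset with hO
  have hmem : ∀ x, x ∈ O ↔ x ∈ orb ρ Δ w := fun x => Set.Finite.mem_toFinset _
  have hne : (O.card : ℚ) ≠ 0 := by
    have : w ∈ O := (hmem w).2 (orb_self w)
    exact_mod_cast (Finset.card_pos.2 ⟨w, this⟩).ne'
  have h1 : (O.card : ℚ)⁻¹ • (∑ x ∈ O, x) ∈ fx ρ Δ := by
    intro g hg
    rw [map_smul, map_sum]
    congr 1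
    exact perm_sum (ρ := ρ) O (fun x hx => (hmem _).2 (orb_stable ((hmem x).1 hx) hg)) id
  have h2 : (O.card : ℚ)⁻¹ • (∑ x ∈ O, (w - x)) ∈ aug ρ Δ := by
    refine Submodule.smul_mem _ _ (Submodule.sum_mem _ fun x hx => ?_)
    obtain ⟨g, hg, rfl⟩ := (hmem x).1 hx
    have h3 : w - ρ g w = -(ρ g w - w) := by abel
    rw [h3]
    exact Submodule.neg_mem _ (Submodule.subset_span ⟨g, hg, w, rfl⟩)
  have h3 : w = (O.card : ℚ)⁻¹ • (∑ x ∈ O, x) + (O.card : ℚ)⁻¹ • (∑ x ∈ O, (w - x)) := by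
    rw [← smul_add, ← Finset.sum_add_distrib]
    have h4 : ∑ x ∈ O, (x + (w - x)) = (O.card : ℚ) • w := by
      rw [Finset.sum_congr rfl fun x _ => add_sub_cancel x w, Finset.sum_const,
        ← Nat.cast_smul_eq_nsmul ℚ]
    rw [h4, smul_smul, inv_mul_cancel₀ hne, one_smul]
  rw [h3]
  exact Submodule.add_mem_sup h1 h2

theorem inf_bot (h : ∀ w, (orb ρ Δ w).Finite) : fx ρ Δ ⊓ aug ρ Δ = ⊥ := by
  rw [eq_bot_iff]
  rintro x ⟨hx, hx'⟩
  rw [Submodule.mem_bot]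
  obtain ⟨t, ht, hxt⟩ := Submodule.mem_span_finite_of_mem_span hx'
  have hch : ∀ y : W, ∃ w : W, y ∈ t → ∃ g ∈ Δ, y = ρ g w - w := by
    intro y
    by_cases hy : y ∈ t
    · obtain ⟨g, hg, w, hw⟩ := ht hy
      exact ⟨w, fun _ => ⟨g, hg, hw⟩⟩
    · exact ⟨0, fun h => absurd h hy⟩
  choose ww hww using hch
  -- a finite stable set
  let T : Finset W := t.biUnion fun y => (h (ww y)).toFinset
  have hTs : ∀ z ∈ T, ∀ g ∈ Δ, ρ g z ∈ T := by
    intro z hz g hg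
    obtain ⟨y, hy, hzy⟩ := Finset.mem_biUnion.1 hz
    refine Finset.mem_biUnion.2 ⟨y, hy, ?_⟩
    rw [Set.Finite.mem_toFinset] at hzy ⊢
    exact orb_stable hzy hg
  have hTw : ∀ y ∈ t, ww y ∈ T := fun y hy => Finset.mem_biUnion.2 ⟨y, hy, by
    rw [Set.Finite.mem_toFinset]; exact orb_self _⟩
  -- the permutations of `T`
  let Pm : Set (T → T) := {p | ∃ g ∈ Δ, ∀ z : T, (p z : W) = ρ g z}
  have hPf : Pm.Finite := Set.toFinite _
  set P := hPf.toFinset with hP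
  have hPm : ∀ p, p ∈ P ↔ p ∈ Pm := fun p => Set.Finite.mem_toFinset _
  have hlift : ∀ p : T → T, ∃ g : Γ, p ∈ P → g ∈ Δ ∧ ∀ z : T, (p z : W) = ρ g z := by
    intro p
    by_cases hp : p ∈ P
    · obtain ⟨g, hg, hz⟩ := (hPm p).1 hp
      exact ⟨g, fun _ => ⟨hg, hz⟩⟩
    · exact ⟨1, fun h => absurd h hp⟩
  choose s hs using hlift
  let A : W →ₗ[ℚ] W := ∑ p ∈ P, ρ (s p)
  have hA : ∀ z ∈ T, ∀ g ∈ Δ, A (ρ g z) = A z := by
    intro z hz g hg
    have e1 : ∀ z' (hz' : z' ∈ T), A z' = ∑ p ∈ P, (p ⟨z', hz'⟩ : W) := by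
      intro z' hz'
      change (∑ p ∈ P, ρ (s p)) z' = _
      rw [LinearMap.sum_apply]
      refine Finset.sum_congr rfl fun p hp => ?_
      exact ((hs p hp).2 ⟨z', hz'⟩).symm
    rw [e1 z hz, e1 _ (hTs z hz g hg)]
    -- reindexing `p ↦ p ∘ g`
    let γ : T → T := fun z => ⟨ρ g z, hTs z z.2 g hg⟩
    let γ' : T → T := fun z => ⟨ρ g⁻¹ z, hTs z z.2 g⁻¹ (Δ.inv_mem hg)⟩
    have hγ : ∀ z, γ' (γ z) = z := fun z => Subtype.ext (by
      change ρ g⁻¹ (ρ g z) = z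
      rw [← rho_mul, inv_mul_cancel, map_one]; rfl)
    have hγ' : ∀ z, γ (γ' z) = z := fun z => Subtype.ext (by
      change ρ g (ρ g⁻¹ z) = z
      rw [← rho_mul, mul_inv_cancel, map_one]; rfl)
    refine Finset.sum_bij' (fun p _ => fun z => p (γ z)) (fun p _ => fun z => p (γ' z)) ?_ ?_ ?_ ?_ ?_
    · intro p hp
      obtain ⟨h', hh', hz'⟩ := (hPm p).1 hp
      refine (hPm _).2 ⟨h' * g, Δ.mul_mem hh' hg, fun z => ?_⟩
      rw [hz' (γ z), rho_mul]
    · intro p hp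
      obtain ⟨h', hh', hz'⟩ := (hPm p).1 hp
      refine (hPm _).2 ⟨h' * g⁻¹, Δ.mul_mem hh' (Δ.inv_mem hg), fun z => ?_⟩
      rw [hz' (γ' z), rho_mul]
    · intro p _
      funext z
      change p (γ (γ' z)) = p z
      rw [hγ']
    · intro p _
      funext z
      change p (γ' (γ z)) = p z
      rw [hγ]
    · intro p _
      rfl
  have hA0 : A x = 0 := by
    have h1 : Submodule.span ℚ (t : Set W) ≤ LinearMap.ker A := by
      rw [Submodule.span_le]
      intro y hy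
      obtain ⟨g, hg, hyw⟩ := hww y hy
      rw [SetLike.mem_coe, LinearMap.mem_ker, hyw, map_sub, hA _ (hTw y hy) g hg, sub_self]
    exact h1 hxt
  have hA1 : A x = (P.card : ℚ) • x := by
    change (∑ p ∈ P, ρ (s p)) x = _
    rw [LinearMap.sum_apply, Finset.sum_congr rfl fun p hp => hx _ (hs p hp).1, Finset.sum_const,
      ← Nat.cast_smul_eq_nsmul ℚ]
  have hPne : (P.card : ℚ) ≠ 0 := by
    have : (id : T → T) ∈ P := (hPm _).2 ⟨1, Δ.one_mem, fun z => by rw [map_one]; rfl⟩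
    exact_mod_cast (Finset.card_pos.2 ⟨_, this⟩).ne'
  rw [hA1] at hA0
  exact (smul_eq_zero.1 hA0).resolve_left hPne

theorem isCompl (h : ∀ w, (orb ρ Δ w).Finite) : IsCompl (fx ρ Δ) (aug ρ Δ) :=
  ⟨disjoint_iff.2 (inf_bot h), codisjoint_iff.2 (sup_top h)⟩

/-- **Invariant extensions of functionals.** -/
theorem exists_ext (h : ∀ w, (orb ρ Δ w).Finite) (μ : fx ρ Δ →ₗ[ℚ] ℚ) :
    ∃ l : W →ₗ[ℚ] ℚ, (∀ g ∈ Δ, ∀ w, l (ρ g w) = l w) ∧ ∀ w : fx ρ Δ, l w = μ w := by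
  refine ⟨LinearMap.ofIsCompl (isCompl h) μ 0, fun g hg w => ?_, fun w => ?_⟩
  · rw [← sub_eq_zero, ← map_sub]
    have h1 : ρ g w - w ∈ aug ρ Δ := Submodule.subset_span ⟨g, hg, w, rfl⟩
    exact LinearMap.ofIsCompl_apply_right (isCompl h) (φ := μ) (ψ := 0) ⟨_, h1⟩
  · exact LinearMap.ofIsCompl_apply_left (isCompl h) (φ := μ) (ψ := 0) w

/-- an invariant functional is determined on the invariants -/
theorem ext_inv {E : Type} [AddCommGroup E] [Module ℚ E] (h : ∀ w, (orb ρ Δ w).Finite)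
    {l l' : W →ₗ[ℚ] E} (hl : ∀ g ∈ Δ, ∀ w, l (ρ g w) = l w) (hl' : ∀ g ∈ Δ, ∀ w, l' (ρ g w) = l' w)
    (he : ∀ w ∈ fx ρ Δ, l w = l' w) : l = l' := by
  have h1 : (⊤ : Submodule ℚ W) ≤ LinearMap.ker (l - l') := by
    rw [← sup_top h, sup_le_iff]
    constructor
    · intro w hw
      rw [LinearMap.mem_ker, LinearMap.sub_apply, he w hw, sub_self]
    · unfold aug
      rw [Submodule.span_le]
      rintro _ ⟨g, hg, w, rfl⟩
      rw [SetLike.mem_coe, LinearMap.mem_ker, LinearMap.sub_apply, map_sub, map_sub, hl g hg,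
        hl' g hg, sub_self, sub_self, sub_self]
  ext w
  have h2 := h1 (Submodule.mem_top (x := w))
  rw [LinearMap.mem_ker, LinearMap.sub_apply, sub_eq_zero] at h2
  exact h2

end

/-- independent functionals take the values of unit vectors -/
theorem exists_dual {W κ : Type} [AddCommGroup W] [Module ℚ W] [Fintype κ] {l : κ → W →ₗ[ℚ] ℚ}
    (hl : LinearIndependent ℚ l) (k : κ) : ∃ w : W, ∀ j, l j w = if j = k then 1 else 0 := by
  let L : W →ₗ[ℚ] (κ → ℚ) := LinearMap.pi l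
  have hL : LinearMap.range L = ⊤ := by
    by_contra hne
    obtain ⟨f, hf0, hf⟩ := Submodule.exists_le_ker_of_lt_top _ (lt_top_iff_ne_top.2 hne)
    apply hf0
    have h1 : ∀ w, ∑ j, f (Pi.single j 1) * l j w = 0 := by
      intro w
      have h2 : f (L w) = 0 := hf ⟨w, rfl⟩
      have h3 : L w = ∑ j, l j w • (Pi.single j (1 : ℚ) : κ → ℚ) := by
        ext j
        rw [Finset.sum_apply]
        simp [Pi.single_apply, L]
      rw [h3, map_sum] at h2
      rw [← h2]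
      refine Finset.sum_congr rfl fun j _ => ?_
      rw [map_smul, smul_eq_mul, mul_comm]
    have h2 := (Fintype.linearIndependent_iff.1 hl) (fun j => f (Pi.single j 1)) (by
      ext w
      rw [LinearMap.sum_apply]
      exact h1 w)
    refine LinearMap.pi_ext' fun j => LinearMap.ext_ring ?_
    simpa using h2 j
  obtain ⟨w, hw⟩ := LinearMap.range_eq_top.1 hL (Pi.single k 1)
  refine ⟨w, fun j => ?_⟩
  have h1 := congrFun hw j
  rw [Pi.single_apply] at h1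
  exact h1

/-- rational matrices with trivial kernel have trivial kernel over `ℝ` -/
theorem ker_real {κ κ' : Type} [Fintype κ] [Fintype κ'] (N : Matrix κ' κ ℚ)
    (h : ∀ c : κ → ℚ, N.mulVec c = 0 → c = 0) (c : κ → ℝ)
    (hc : (N.map (algebraMap ℚ ℝ)).mulVec c = 0) : c = 0 := by
  have h1 : LinearMap.ker (Matrix.mulVecLin N) = ⊥ := by
    rw [LinearMap.ker_eq_bot']
    exact fun c hc => h c hc
  obtain ⟨g, hg⟩ := LinearMap.exists_leftInverse_of_injective _ h1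
  have h2 : (LinearMap.toMatrix' g) * N = 1 := by
    have h3 := congrArg LinearMap.toMatrix' hg
    rw [LinearMap.toMatrix'_comp, LinearMap.toMatrix'_id] at h3
    rw [← h3]
    congr 1
    exact (LinearMap.toMatrix'_toLin' N).symm
  have h3 : ((LinearMap.toMatrix' g).map (algebraMap ℚ ℝ)) * (N.map (algebraMap ℚ ℝ)) = 1 := by
    rw [← Matrix.map_mul, h2]
    simp
  have h4 : c = (((LinearMap.toMatrix' g).map (algebraMap ℚ ℝ)) *
      (N.map (algebraMap ℚ ℝ))).mulVec c := by rw [h3, Matrix.one_mulVec]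
  rw [h4, ← Matrix.mulVec_mulVec, hc, Matrix.mulVec_zero]

end Pool.Agent.H39.Ht
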