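import Pool.Agent.H26.Lib.R_pool_sql_team_seeded_3997aac3.Q5.RG.Pub
import Pool.Agent.H39.Ht.Lin

/-! The spaces of Beilinson's conjecture on heights and central values. -/

set_option autoImplicit false
set_option linter.unusedSectionVars false

namespace Pool.Agent.H39.Ht

open Module NumberField IsDedekindDomain Polynomial Pool.Agent.W353.NF Pool.Agent.W401.Cheb
open Pool.Agent.Q5.BR Pool.Agent.Q5.RG Pool.Agent.Q5.VL
open Pool.Agent.W353.EF (LFun)
open scoped Classical

/-- The spaces attached to a variety `X` of dimension `n` and a codimension `m` (limits over all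
finite extensions of a field with absolute Galois group `Γ`; the elements fixed by the stabilizer of an
extension `F` belong to `F`): `V` and `W` are the homologically trivial cycles
`CH^m(X)^0 ⊗ ℚ` and `CH^(n+1-m)(X)^0 ⊗ ℚ`, `B` is rational Betti cohomology `H^(2m-1)(X, ℚ(m-1))`, `Φ` the
step `F^m` of de Rham cohomology, `U` real Betti cohomology, `η : B → U` and `φ : Φ → U` are the
comparison maps, and `ht` is the height pairing (normalized so that it does not depend on the field). -/
structure Heights (Γ : Type) [Group Γ] where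
  V : GVec ℚ Γ
  W : GVec ℚ Γ
  B : GVec ℚ Γ
  Φ : GVec ℚ Γ
  U : GVec ℝ Γ
  η : GHom B U
  φ : GHom Φ U
  ht : V.car →ₗ[ℚ] W.car →ₗ[ℚ] ℝ
  ht_inv : ∀ g v w, ht (V.mul g v) (W.mul g w) = ht v w

section
variable {Γ : Type} [Group Γ]

/-- `p` is the dimension of `V` and of `W` over the field of `Δ`, and `c` is the product of the
determinants of the height pairing and of the period matrix in rational bases, and is not zero. -/
def Heights.IsReg (M : Heights Γ) (Δ : Subgroup Γ) (p : ℕ) (c : ℝ) : Prop :=
  c ≠ 0 ∧ ∃ (q : ℕ) (a : Fin p → M.V.car) (a' : Fin p → M.W.car) (f : Fin q → M.Φ.car)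
    (b : Fin q → M.B.car) (P : Matrix (Fin q) (Fin q) ℝ),
    M.V.IsBasis Δ a ∧ M.W.IsBasis Δ a' ∧ M.Φ.IsBasis Δ f ∧ M.B.IsBasis Δ b ∧
    M.η.IsMatrix b (fun l => M.φ.app (f l)) P ∧
    (Matrix.of fun i j => M.ht (a i) (a' j)).det * P.det = c

/-- The comparison over the field of `Δ`: `B` is finite-dimensional and spans `U`, and `Φ` spans
`U`. -/
structure Heights.GoodAt (M : Heights Γ) (Δ : Subgroup Γ) : Prop where
  betti : ∃ (p : ℕ) (b : Fin p → M.B.car), M.B.IsBasis Δ b
  span : ∀ u, M.U.Fix Δ u → u ∈ Submodule.span ℝ (M.η.app '' {b | M.B.Fix Δ b})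
  deR : ∀ u, M.U.Fix Δ u → u ∈ Submodule.span ℝ (M.φ.app '' {f | M.Φ.Fix Δ f})

/-- rationally independent elements of `B` are independent in `U`, and every cycle has finitely many
conjugates -/
structure Heights.Comp (M : Heights Γ) : Prop where
  indep : ∀ (κ : Type) [Fintype κ] (b : κ → M.B.car), LinearIndependent ℚ b →
    LinearIndependent ℝ fun l => M.η.app (b l)
  cycles : ∀ w : M.W.car, (Set.range fun g => M.W.mul g w).Finite

/-- `Hom(A, ℚ)` -/
def dualQ (A : GVec ℚ Γ) : GVec ℚ Γ where
  car := A.car →ₗ[ℚ] ℚ
  act :=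
    { toFun := fun g =>
        { toFun := fun l => l ∘ₗ A.act g⁻¹
          map_add' := fun _ _ => rfl
          map_smul' := fun _ _ => rfl }
      map_one' := by
        ext l w
        change l (A.act 1⁻¹ w) = l w
        rw [inv_one, map_one]
        rfl
      map_mul' := fun g h => by
        ext l w
        change l (A.act (g * h)⁻¹ w) = l (A.act h⁻¹ (A.act g⁻¹ w))
        rw [mul_inv_rev, map_mul]
        rfl }

/-- `Hom(A, ℝ)` -/
noncomputable def dualR (A : GVec ℚ Γ) : GVec ℝ Γ where
  car := A.car →ₗ[ℚ] ℝ
  act :=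
    { toFun := fun g =>
        { toFun := fun l => l ∘ₗ A.act g⁻¹
          map_add' := fun _ _ => rfl
          map_smul' := fun _ _ => rfl }
      map_one' := by
        ext l w
        change l (A.act 1⁻¹ w) = l w
        rw [inv_one, map_one]
        rfl
      map_mul' := fun g h => by
        ext l w
        change l (A.act (g * h)⁻¹ w) = l (A.act h⁻¹ (A.act g⁻¹ w))
        rw [mul_inv_rev, map_mul]
        rfl }

/-- the product -/
def prodG {k : Type} [Field k] (A B : GVec k Γ) : GVec k Γ where
  car := A.car × B.car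
  act :=
    { toFun := fun g => (A.act g).prodMap (B.act g)
      map_one' := by
        rw [map_one, map_one]
        exact LinearMap.prodMap_id
      map_mul' := fun g h => by
        rw [map_mul, map_mul]
        exact (LinearMap.prodMap_comp _ _ _ _).symm }

/-- the functional over `ℝ` -/
noncomputable def toR {A : Type} [AddCommGroup A] [Module ℚ A] (l : A →ₗ[ℚ] ℚ) : A →ₗ[ℚ] ℝ :=
  (Algebra.linearMap ℚ ℝ) ∘ₗ l

theorem toR_apply {A : Type} [AddCommGroup A] [Module ℚ A] (l : A →ₗ[ℚ] ℚ) (w : A) :
    toR l w = (l w : ℝ) := rfl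

theorem toR_add {A : Type} [AddCommGroup A] [Module ℚ A] (l l' : A →ₗ[ℚ] ℚ) :
    toR (l + l') = toR l + toR l' := LinearMap.comp_add _ _ _

theorem toR_zero {A : Type} [AddCommGroup A] [Module ℚ A] :
    toR (0 : A →ₗ[ℚ] ℚ) = 0 := LinearMap.comp_zero _

theorem toR_smul {A : Type} [AddCommGroup A] [Module ℚ A] (c : ℚ) (l : A →ₗ[ℚ] ℚ) :
    toR (c • l) = (algebraMap ℚ ℝ c) • toR l := by
  apply LinearMap.ext
  intro w
  change algebraMap ℚ ℝ (c * l w) = algebraMap ℚ ℝ c * algebraMap ℚ ℝ (l w)
  rw [map_mul]

/-- the spaces of a conjecture on regulators -/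
@[reducible] noncomputable def Heights.sp (M : Heights Γ) : Spaces ℚ ℝ Γ where
  V := M.V
  B := prodG (dualQ M.W) M.B
  Φ := M.Φ
  U := prodG (dualR M.W) M.U
  D := dualR M.W
  η :=
    { map :=
        { toFun := fun x => (toR (A := M.W.car) x.1, M.η.map x.2)
          map_add' := fun x y => Prod.ext (toR_add (A := M.W.car) _ _) (map_add M.η.map _ _)
          map_smul' := fun c x => Prod.ext (toR_smul (A := M.W.car) _ _)
            (M.η.map.map_smulₛₗ _ _) }
      comm := fun g x => Prod.ext rfl (M.η.comm g x.2) }
  φ :=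
    { map :=
        { toFun := fun x => (0, M.φ.map x)
          map_add' := fun x y => by
            refine Prod.ext (add_zero _).symm (map_add M.φ.map _ _)
          map_smul' := fun c x => by
            refine Prod.ext (smul_zero _).symm (M.φ.map.map_smulₛₗ _ _) }
      comm := fun g x => by
        refine Prod.ext ?_ (M.φ.comm g x)
        exact (map_zero ((dualR M.W).act g)).symm }
  π :=
    { map := LinearMap.fst ℝ _ _
      comm := fun _ _ => rfl }
  r :=
    { map :=
        { toFun := fun v => M.ht v
          map_add' := fun x y => map_add M.ht x y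
          map_smul' := fun c x => by
            apply LinearMap.ext
            intro w
            change M.ht (c • x) w = algebraMap ℚ ℝ c * M.ht x w
            rw [map_smul, LinearMap.smul_apply, Algebra.smul_def] }
      comm := fun g x => by
        apply LinearMap.ext
        intro w
        change M.ht (M.V.mul g x) w = M.ht x (M.W.act g⁻¹ w)
        rw [← M.ht_inv g x (M.W.act g⁻¹ w)]
        congr 1
        change w = M.W.act g (M.W.act g⁻¹ w)
        rw [← rho_mul, mul_inv_cancel, map_one]
        rfl }

end

section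
variable {K : Type} [Field K] [NumberField K] (M : Heights (GK K))

/-- `p` and `c` are the dimension of the space of cycles and the product of the determinants over the
extension `F` of `K` -/
def Heights.Reg (F : Type) [Field F] [Algebra K F] (p : ℕ) (c : ℝ) : Prop :=
  ∃ i : F →ₐ[K] AlgebraicClosure K, M.IsReg (stabE i) p c

/-- the comparison over all finite extensions of `K` -/
structure Heights.Good : Prop where
  comp : M.Comp
  good : ∀ (F : Type) [Field F] [NumberField F] [Algebra K F] (i : F →ₐ[K] AlgebraicClosure K),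
    M.GoodAt (stabE i)

/-- the L-function with the Euler polynomials `B` has a meromorphic continuation to `Ω`, the order of
which at `m` is the dimension of the space of cycles, and the leading coefficient a rational multiple of
the product of the determinants of the height pairing and of the period matrix -/
def Heights.Central (m : ℤ) (Ω : Set ℂ) (F : Type) [Field F] [NumberField F] [Algebra K F]
    (B : HeightOneSpectrum (𝓞 F) → ℚ[X]) : Prop :=
  ∃ f : ℂ → ℂ, MeromorphicOn f Ω ∧ (∃ b : ℝ, ∀ s : ℂ, b < s.re → f s = LFun (mp B) s) ∧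
    ∀ p c, M.Reg F p c → meromorphicOrderAt f m = ((p : ℕ) : WithTop ℤ) ∧
      ∃ q : ℚ, q ≠ 0 ∧ meromorphicTrailingCoeffAt f m = q * (c : ℂ)

end

end Pool.Agent.H39.Ht
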