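import Pool.Agent.H26.K4.Tower
import Pool.Agent.H26.Lib.R_pool_sql_team_seeded_3997aac3.Q5.RY.Rigid
import Pool.Agent.H39.Ht.Conv

/-! The conjecture on heights and central values over all extensions. -/

set_option autoImplicit false
set_option linter.unusedSectionVars false

namespace Pool.Agent.H39.Ht

open Module NumberField IsDedekindDomain Polynomial Pool.Agent.W353.NF Pool.Agent.W401.Cheb
open Pool.Agent.Q5.BR Pool.Agent.Q5.RG Pool.Agent.Q5.VL
open Pool.Agent.Q5.RF (Rigid)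
open Pool.Agent.H26.K4 (AtMost)
open Pool.Agent.W353.EF (LFun)
open scoped Classical

section
variable {K : Type} [Field K] [NumberField K]

/-- finite dimensions do not depend on the embedding -/
theorem fin_conj {A : GVec ℚ (GK K)} {F : Type} [Field F] [Algebra K F]
    (i j : F →ₐ[K] AlgebraicClosure K) (h : FiniteDimensional ℚ (inv A.act (stabE j))) :
    FiniteDimensional ℚ (inv A.act (stabE i)) := by
  obtain ⟨τ, hτ⟩ := exists_conj i j
  have h1 : ∀ w ∈ inv A.act (stabE i), A.act τ w ∈ inv A.act (stabE j) := by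
    intro w hw σ hσ
    have h4 : τ⁻¹ * σ * τ ∈ stabE i := by
      intro z
      change τ.symm (σ (τ (i z))) = i z
      have h5 : τ (i z) = j z := DFunLike.congr_fun hτ z
      rw [h5, hσ z, ← h5]
      exact τ.symm_apply_apply (i z)
    have h7 := hw _ h4
    rw [rho_mul, rho_mul] at h7
    have h8 := congrArg (A.act τ) h7
    rw [← rho_mul A.act τ τ⁻¹, mul_inv_cancel, map_one] at h8
    exact h8
  exact Module.Finite.of_injective ((A.act τ).restrict h1) fun x y hxy => by
    have h2 := congrArg Subtype.val hxy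
    exact Subtype.ext (rho_inj τ h2)

/-- finite dimensions over a subfield -/
theorem fin_sub {A : GVec ℚ (GK K)} {F F' : Type} [Field F] [Algebra K F] [Field F'] [Algebra K F']
    [Algebra F F'] [IsScalarTower K F F'] (i : F →ₐ[K] AlgebraicClosure K)
    (i' : F' →ₐ[K] AlgebraicClosure K) (h : FiniteDimensional ℚ (inv A.act (stabE i'))) :
    FiniteDimensional ℚ (inv A.act (stabE i)) := by
  refine fin_conj i (i'.comp (IsScalarTower.toAlgHom K F F')) ?_
  have hle : inv A.act (stabE (i'.comp (IsScalarTower.toAlgHom K F F'))) ≤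
      inv A.act (stabE i') := fun w hw σ hσ => hw σ fun x => hσ (algebraMap F F' x)
  exact Module.Finite.of_injective (Submodule.inclusion hle) (Submodule.inclusion_injective hle)

/-- finite dimensions over all extensions from those without automorphisms and with at most one small
prime -/
theorem fin_all {A : GVec ℚ (GK K)} (X₀ : ℕ)
    (h : ∀ (F : Type) [Field F] [NumberField F] [Algebra K F], Rigid F → AtMost X₀ F →
      ∃ i : F →ₐ[K] AlgebraicClosure K, FiniteDimensional ℚ (inv A.act (stabE i)))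
    (F : Type) [Field F] [NumberField F] [Algebra K F] (i : F →ₐ[K] AlgebraicClosure K) :
    FiniteDimensional ℚ (inv A.act (stabE i)) := by
  obtain ⟨Z, hZr, hZs⟩ := Pool.Agent.H26.K4.exists_rigid_small_above F X₀
  let _ : Algebra K Z.F := ((algebraMap F Z.F).comp (algebraMap K F)).toAlgebra
  have : IsScalarTower K F Z.F := IsScalarTower.of_algebraMap_eq fun x => rfl
  obtain ⟨i', h'⟩ := h Z.F hZr hZs
  exact fin_sub i i' h'

end

section
variable {K : Type} [Field K] [NumberField K] {n : ℕ} (X : Set (MvPolynomial (Fin n) (𝓞 K)))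
  (d i N : ℕ) (m : ℤ) (Ω : Set ℂ)

/-- (i), (iii) with the continuation -/
def RankConj (V : GVec ℚ (GK K)) (F : Type) [Field F] [NumberField F] [Algebra K F] : Prop :=
  ∃ (e : F →ₐ[K] AlgebraicClosure K) (p : ℕ) (a : Fin p → V.car), V.IsBasis (stabE e) a ∧
    ∀ B : HeightOneSpectrum (𝓞 F) → ℂ[X], ES X d i N (m : ℂ) B →
      ∃ f : ℂ → ℂ, MeromorphicOn f Ω ∧ (∃ b : ℝ, ∀ s : ℂ, b < s.re → f s = LFun B s) ∧
        meromorphicOrderAt f m = ((p : ℕ) : WithTop ℤ)

variable {X d i N m Ω}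

theorem rankConj_iff {V : GVec ℚ (GK K)}
    (hV : ∀ (F : Type) [Field F] [NumberField F] [Algebra K F] (i : F →ₐ[K] AlgebraicClosure K),
      FiniteDimensional ℚ (inv V.act (stabE i)))
    (F : Type) [Field F] [NumberField F] [Algebra K F] :
    RankConj X d i N m Ω V F ↔ ∀ B : HeightOneSpectrum (𝓞 F) → ℂ[X],
      ES X d i N (m : ℂ) B → PowO Ω (m : ℂ) B 1 (1 * (1 * rk V.act F)) := by
  constructor
  · rintro ⟨e, p, a, ha, h⟩ B hB
    obtain ⟨f, h1, ⟨b, h2⟩, h3⟩ := h B hB
    refine ⟨f, h1, ⟨b, fun s hs => by rw [h2 s hs, zpow_one]⟩, ?_⟩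
    obtain ⟨a', -⟩ := GVec.exists_basis ha
    have h4 : rk V.act F = p := by
      rw [rk_eq _ e, fixV_eq, finrank_eq_card_basis a', Fintype.card_fin]
    rw [h3, h4, one_mul, one_mul]
    rfl
  · intro h
    let e : F →ₐ[K] AlgebraicClosure K := IsAlgClosed.lift
    have hfd := hV F e
    refine ⟨e, _, _, GVec.isBasis_basis (A := V) (finBasis ℚ (inv V.act (stabE e))),
      fun B hB => ?_⟩
    obtain ⟨f, h1, ⟨b, h2⟩, h3⟩ := h B hB
    refine ⟨f, h1, ⟨b, fun s hs => by rw [h2 s hs, zpow_one]⟩, ?_⟩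
    rw [h3, rk_eq _ e, fixV_eq, one_mul, one_mul]
    rfl

theorem rank_all (hi : i ≤ 2 * d) (hΩ : IsDom Ω (m : ℂ)) (hm : (i : ℝ) / 2 < m) (X₀ : ℕ)
    {V : GVec ℚ (GK K)}
    (h : ∀ (F : Type) [Field F] [NumberField F] [Algebra K F], Rigid F → AtMost X₀ F →
      RankConj X d i N m Ω V F)
    (F : Type) [Field F] [NumberField F] [Algebra K F] : RankConj X d i N m Ω V F := by
  have hV : ∀ (F : Type) [Field F] [NumberField F] [Algebra K F]
      (i : F →ₐ[K] AlgebraicClosure K), FiniteDimensional ℚ (inv V.act (stabE i)) := by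
    intro F _ _ _ i
    refine fin_all X₀ (fun F' _ _ _ hr hs => ?_) F i
    obtain ⟨e, p, a, ha, -⟩ := h F' hr hs
    obtain ⟨a', -⟩ := GVec.exists_basis ha
    exact ⟨e, Module.Finite.of_basis a'⟩
  have hV' : ∀ N : IntermediateField K (AlgebraicClosure K), FiniteDimensional K N →
      FiniteDimensional ℚ (fixV V.act N.val) := by
    intro N _
    have : NumberField N := NumberField.of_module_finite K N
    rw [fixV_eq]
    exact hV N N.val
  have hlaw := law_cen (X := X) (d := d) (i := i) (N := N) (ρ := V.act) hi hΩ (by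
    have : ((m : ℂ)).re = (m : ℝ) := Complex.intCast_re m
    rw [this]
    exact hm) 1 hV'
  exact (rankConj_iff hV F).2 (Pool.Agent.H26.K4.gen_rigid_small_law (K := K) hlaw X₀
    (fun F' _ _ _ hr hs => (rankConj_iff hV F').1 (h F' hr hs)) F)

variable (X d i N m Ω)

/-- (i) - (iv) with the continuation -/
def HeightConj (M : Heights (GK K)) (F : Type) [Field F] [NumberField F] [Algebra K F] : Prop :=
  (∃ p c, M.Reg F p c) ∧
    ∀ B : HeightOneSpectrum (𝓞 F) → ℚ[X], Sys X d i N m F B → M.Central m Ω F B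

variable {X d i N m Ω}

theorem heightConj_iff {M : Heights (GK K)} (hM : M.Good)
    (hW : ∀ (F : Type) [Field F] [NumberField F] [Algebra K F] (i : F →ₐ[K] AlgebraicClosure K),
      FiniteDimensional ℚ (inv M.W.act (stabE i)))
    (F : Type) [Field F] [NumberField F] [Algebra K F] :
    HeightConj X d i N m Ω M F ↔ ((∃ p c, (M.sp).Reg F p c) ∧
      ∀ B : HeightOneSpectrum (𝓞 F) → ℚ[X], Sys X d i N m F B → (M.sp).Pow m Ω F B 1) := by
  constructor
  · rintro ⟨⟨p, c, e, hc⟩, h⟩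
    refine ⟨⟨p, c, e, to_sp hM.comp hc⟩, fun B hB => ?_⟩
    obtain ⟨f, h1, ⟨b, h2⟩, h3⟩ := h B hB
    refine ⟨f, h1, ⟨b, fun s hs => by rw [h2 s hs, pow_one]⟩, ?_⟩
    rintro p' c' ⟨e', hc'⟩
    have := hW F e'
    obtain ⟨t, ht, h4⟩ := of_sp hM.comp (hM.good F e') hc'
    obtain ⟨h5, q, hq, h6⟩ := h3 p' _ ⟨e', h4⟩
    refine ⟨by rw [h5, one_mul], q * t, mul_ne_zero hq ht, ?_⟩
    rw [h6]
    push_cast
    ring
  · rintro ⟨⟨p, c, e, hc⟩, h⟩
    have := hW F e
    obtain ⟨t, ht, h4⟩ := of_sp hM.comp (hM.good F e) hc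
    refine ⟨⟨p, _, e, h4⟩, fun B hB => ?_⟩
    obtain ⟨f, h1, ⟨b, h2⟩, h3⟩ := h B hB
    refine ⟨f, h1, ⟨b, fun s hs => by rw [h2 s hs, pow_one]⟩, ?_⟩
    rintro p' c' ⟨e', hc'⟩
    obtain ⟨h5, q, hq, h6⟩ := h3 p' c' ⟨e', to_sp hM.comp hc'⟩
    refine ⟨by rw [h5, one_mul], q, hq, ?_⟩
    rw [h6, pow_one]

theorem sp_good {M : Heights (GK K)} (hM : M.Good)
    (hW : ∀ (F : Type) [Field F] [NumberField F] [Algebra K F] (i : F →ₐ[K] AlgebraicClosure K),
      FiniteDimensional ℚ (inv M.W.act (stabE i))) : (M.sp).Good where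
  comp := sp_comp hM.comp
  good := fun F _ _ _ i => by
    have := hW F i
    exact sp_goodAt hM.comp (hM.good F i)

theorem height_all (hi : i ≤ 2 * d) (hΩ : IsDom Ω (m : ℂ))
    (hsys : ∀ (F : Type) [Field F] [NumberField F] [Algebra K F], ∃ B, Sys X d i N m F B)
    {M : Heights (GK K)} (hM : M.Good) (X₀ : ℕ)
    (h : ∀ (F : Type) [Field F] [NumberField F] [Algebra K F], Rigid F → AtMost X₀ F →
      HeightConj X d i N m Ω M F)
    (F : Type) [Field F] [NumberField F] [Algebra K F] : HeightConj X d i N m Ω M F := by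
  have hW : ∀ (F : Type) [Field F] [NumberField F] [Algebra K F]
      (i : F →ₐ[K] AlgebraicClosure K), FiniteDimensional ℚ (inv M.W.act (stabE i)) := by
    intro F _ _ _ i
    refine fin_all X₀ (fun F' _ _ _ hr hs => ?_) F i
    obtain ⟨⟨p, c, e, -, q, a, a', f, b, P, ha, ha', -⟩, -⟩ := h F' hr hs
    obtain ⟨a'', -⟩ := GVec.exists_basis ha'
    exact ⟨e, Module.Finite.of_basis a''⟩
  have hS := sp_good hM hW
  have hG := Spaces.goodM hS
  refine (heightConj_iff hM hW F).2 ((Spaces.conj_iff hS.comp.onto).1 (conjQ_of_law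
    (Pool.Agent.H26.K4.gen_rigid_small_law (K := K) (lawQ_isLaw hi hΩ hG hsys) X₀ ?_ F)))
  intro F' _ _ _ hr hs
  refine law_of_conjQ ((Spaces.conj_iff hS.comp.onto).2 ((heightConj_iff hM hW F').1 (h F' hr hs)))
    fun F'' _ _ _ _ _ => ?_
  obtain ⟨Z, hZr, hZs⟩ := Pool.Agent.H26.K4.exists_rigid_small_above F'' X₀
  let _ : Algebra K Z.F := ((algebraMap F'' Z.F).comp (algebraMap K F'')).toAlgebra
  have : IsScalarTower K F'' Z.F := IsScalarTower.of_algebraMap_eq fun x => rfl
  exact Pool.Agent.Q5.RY.reg_sub_any hG (F' := Z.F)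
    ((Spaces.ex_iff hS.comp.onto).1 ((heightConj_iff hM hW Z.F).1 (h Z.F hZr hZs)).1)

end

end Pool.Agent.H39.Ht
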