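import Pool.Agent.H39.Ht.Defs

/-! The heights as regulators. -/

set_option autoImplicit false
set_option linter.unusedSectionVars false

namespace Pool.Agent.H39.Ht

open Module Pool.Agent.Q5.RG
open scoped Classical

/-- independence in a product -/
theorem indep_prod {B₁ B₂ U₁ U₂ : Type} [AddCommGroup B₁] [Module ℚ B₁] [AddCommGroup B₂]
    [Module ℚ B₂] [AddCommGroup U₁] [Module ℝ U₁] [AddCommGroup U₂] [Module ℝ U₂]
    (η₁ : B₁ →ₛₗ[algebraMap ℚ ℝ] U₁) (η₂ : B₂ →ₛₗ[algebraMap ℚ ℝ] U₂)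
    (h₁ : ∀ (κ : Type) [Fintype κ] (w : κ → B₁), LinearIndependent ℚ w →
      LinearIndependent ℝ fun l => η₁ (w l))
    (h₂ : ∀ (κ : Type) [Fintype κ] (w : κ → B₂), LinearIndependent ℚ w →
      LinearIndependent ℝ fun l => η₂ (w l))
    {κ : Type} [Fintype κ] {w : κ → B₁ × B₂} (hw : LinearIndependent ℚ w) :
    LinearIndependent ℝ fun l => (η₁ (w l).1, η₂ (w l).2) := by
  let S₁ : Submodule ℚ B₁ := Submodule.span ℚ (Set.range fun l => (w l).1)
  let S₂ : Submodule ℚ B₂ := Submodule.span ℚ (Set.range fun l => (w l).2)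
  have : FiniteDimensional ℚ S₁ := FiniteDimensional.span_of_finite ℚ (Set.finite_range _)
  have : FiniteDimensional ℚ S₂ := FiniteDimensional.span_of_finite ℚ (Set.finite_range _)
  let g := finBasis ℚ S₁
  let h := finBasis ℚ S₂
  have hm₁ : ∀ l, (w l).1 ∈ S₁ := fun l => Submodule.subset_span ⟨l, rfl⟩
  have hm₂ : ∀ l, (w l).2 ∈ S₂ := fun l => Submodule.subset_span ⟨l, rfl⟩
  let N : Matrix (Fin (finrank ℚ S₁) ⊕ Fin (finrank ℚ S₂)) κ ℚ :=
    Matrix.of (Sum.elim (fun i l => g.repr ⟨_, hm₁ l⟩ i) (fun j l => h.repr ⟨_, hm₂ l⟩ j))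
  have e₁ : ∀ l, (w l).1 = ∑ i, N (Sum.inl i) l • (g i : B₁) := by
    intro l
    have h1 := congrArg (fun z : S₁ => (z : B₁)) (g.sum_repr ⟨_, hm₁ l⟩)
    simp only [Submodule.coe_sum, Submodule.coe_smul] at h1
    exact h1.symm
  have e₂ : ∀ l, (w l).2 = ∑ i, N (Sum.inr i) l • (h i : B₂) := by
    intro l
    have h1 := congrArg (fun z : S₂ => (z : B₂)) (h.sum_repr ⟨_, hm₂ l⟩)
    simp only [Submodule.coe_sum, Submodule.coe_smul] at h1
    exact h1.symm
  have i₁ : LinearIndependent ℝ fun i => η₁ (g i : B₁) :=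
    h₁ _ _ (g.linearIndependent.map' S₁.subtype (Submodule.ker_subtype _))
  have i₂ : LinearIndependent ℝ fun i => η₂ (h i : B₂) :=
    h₂ _ _ (h.linearIndependent.map' S₂.subtype (Submodule.ker_subtype _))
  rw [Fintype.linearIndependent_iff]
  intro c hc
  have c₁ : ∑ l, c l • η₁ (w l).1 = 0 := by
    have := congrArg Prod.fst hc
    rw [Prod.fst_sum] at this
    exact this
  have c₂ : ∑ l, c l • η₂ (w l).2 = 0 := by
    have := congrArg Prod.snd hc
    rw [Prod.snd_sum] at this
    exact this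
  have hN : (N.map (algebraMap ℚ ℝ)).mulVec c = 0 := by
    funext i
    rcases i with i | i
    · refine (Fintype.linearIndependent_iff.1 i₁)
        (fun i => (N.map (algebraMap ℚ ℝ)).mulVec c (Sum.inl i)) ?_ i
      rw [← c₁]
      simp only [Matrix.mulVec, dotProduct, Matrix.map_apply, Finset.sum_smul]
      rw [Finset.sum_comm]
      refine Finset.sum_congr rfl fun l _ => ?_
      conv_rhs => rw [e₁ l, map_sum, Finset.smul_sum]
      refine Finset.sum_congr rfl fun i _ => ?_
      rw [LinearMap.map_smulₛₗ, smul_smul, mul_comm]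
    · refine (Fintype.linearIndependent_iff.1 i₂)
        (fun i => (N.map (algebraMap ℚ ℝ)).mulVec c (Sum.inr i)) ?_ i
      rw [← c₂]
      simp only [Matrix.mulVec, dotProduct, Matrix.map_apply, Finset.sum_smul]
      rw [Finset.sum_comm]
      refine Finset.sum_congr rfl fun l _ => ?_
      conv_rhs => rw [e₂ l, map_sum, Finset.smul_sum]
      refine Finset.sum_congr rfl fun i _ => ?_
      rw [LinearMap.map_smulₛₗ, smul_smul, mul_comm]
  have hk : ∀ q : κ → ℚ, N.mulVec q = 0 → q = 0 := by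
    intro q hq
    have h0 : ∑ l, q l • w l = 0 := by
      refine Prod.ext ?_ ?_
      · rw [Prod.fst_sum]
        change ∑ l, q l • (w l).1 = 0
        have h1 : ∑ l, q l • (w l).1 = ∑ i, (N.mulVec q (Sum.inl i)) • (g i : B₁) := by
          simp only [Matrix.mulVec, dotProduct, Finset.sum_smul]
          rw [Finset.sum_comm]
          refine Finset.sum_congr rfl fun l _ => ?_
          conv_lhs => rw [e₁ l, Finset.smul_sum]
          refine Finset.sum_congr rfl fun i _ => ?_
          rw [smul_smul, mul_comm]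
        rw [h1]
        exact Finset.sum_eq_zero fun i _ => by rw [hq]; exact zero_smul _ _
      · rw [Prod.snd_sum]
        change ∑ l, q l • (w l).2 = 0
        have h1 : ∑ l, q l • (w l).2 = ∑ i, (N.mulVec q (Sum.inr i)) • (h i : B₂) := by
          simp only [Matrix.mulVec, dotProduct, Finset.sum_smul]
          rw [Finset.sum_comm]
          refine Finset.sum_congr rfl fun l _ => ?_
          conv_lhs => rw [e₂ l, Finset.smul_sum]
          refine Finset.sum_congr rfl fun i _ => ?_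
          rw [smul_smul, mul_comm]
        rw [h1]
        exact Finset.sum_eq_zero fun i _ => by rw [hq]; exact zero_smul _ _
    funext l
    exact (Fintype.linearIndependent_iff.1 hw) q h0 l
  have := ker_real N hk c hN
  intro l
  rw [this]
  rfl

section
variable {Γ : Type} [Group Γ]

theorem mem_basis {k : Type} [Field k] {A : GVec k Γ} {Δ : Subgroup Γ} {κ : Type} {a : κ → A.car}
    (ha : A.IsBasis Δ a) (l : κ) : A.Fix Δ (a l) :=
  (ha.2 (a l)).1 (Submodule.subset_span ⟨l, rfl⟩)

theorem orbs {A : GVec ℚ Γ} (h : ∀ w : A.car, (Set.range fun g => A.mul g w).Finite)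
    (Δ : Subgroup Γ) (w : A.car) : (orb A.act Δ w).Finite := by
  refine (h w).subset ?_
  rintro _ ⟨g, -, rfl⟩
  exact ⟨g, rfl⟩

section
variable {k : Type} [Field k] {A B : GVec k Γ}

/-- the projections and inclusions -/
def fstG : (prodG A B).car →ₗ[k] A.car := LinearMap.fst k A.car B.car
def sndG : (prodG A B).car →ₗ[k] B.car := LinearMap.snd k A.car B.car
def inlG : A.car →ₗ[k] (prodG A B).car := LinearMap.inl k A.car B.car
def inrG : B.car →ₗ[k] (prodG A B).car := LinearMap.inr k A.car B.car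

theorem prodG_ext {x y : (prodG A B).car} (h1 : fstG x = fstG y) (h2 : sndG x = sndG y) : x = y :=
  Prod.ext h1 h2

theorem fst_inl (x : A.car) : fstG (inlG x : (prodG A B).car) = x := rfl
theorem snd_inl (x : A.car) : sndG (inlG x : (prodG A B).car) = 0 := rfl
theorem fst_inr (x : B.car) : fstG (inrG x : (prodG A B).car) = 0 := rfl
theorem snd_inr (x : B.car) : sndG (inrG x : (prodG A B).car) = x := rfl

theorem decomp (x : (prodG A B).car) : x = inlG (fstG x) + inrG (sndG x) := by
  apply prodG_ext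
  · rw [map_add, fst_inl, fst_inr, add_zero]
  · rw [map_add, snd_inl, snd_inr, zero_add]

theorem prodG_fix {Δ : Subgroup Γ} {x : (prodG A B).car} :
    (prodG A B).Fix Δ x ↔ A.Fix Δ (fstG x) ∧ B.Fix Δ (sndG x) := by
  constructor
  · intro h
    exact ⟨fun g hg => congrArg fstG (h g hg), fun g hg => congrArg sndG (h g hg)⟩
  · rintro ⟨h1, h2⟩ g hg
    exact prodG_ext (h1 g hg) (h2 g hg)

theorem fix_zero (A : GVec k Γ) (Δ : Subgroup Γ) : A.Fix Δ 0 := fun _ _ => map_zero _

end

section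
variable {A : GVec ℚ Γ}

/-- the evaluation -/
def evQ (w : A.car) : (dualQ A).car →ₗ[ℚ] ℚ where
  toFun := fun l => (show A.car →ₗ[ℚ] ℚ from l) w
  map_add' := fun _ _ => rfl
  map_smul' := fun _ _ => rfl

/-- the evaluation -/
noncomputable def evR (w : A.car) : (dualR A).car →ₗ[ℝ] ℝ where
  toFun := fun l => (show A.car →ₗ[ℚ] ℝ from l) w
  map_add' := fun _ _ => rfl
  map_smul' := fun _ _ => rfl

/-- the functional over `ℝ` -/
noncomputable def toRG : (dualQ A).car →ₛₗ[algebraMap ℚ ℝ] (dualR A).car where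
  toFun := fun l => toR (A := A.car) l
  map_add' := fun _ _ => toR_add (A := A.car) _ _
  map_smul' := fun _ _ => toR_smul (A := A.car) _ _

theorem evR_toRG (w : A.car) (l : (dualQ A).car) : evR w (toRG l) = (evQ w l : ℝ) := rfl

theorem dualQ_ext {l l' : (dualQ A).car} (h : ∀ w, evQ w l = evQ w l') : l = l' :=
  LinearMap.ext (f := (show A.car →ₗ[ℚ] ℚ from l)) (g := l') h

theorem dualR_ext {l l' : (dualR A).car} (h : ∀ w, evR w l = evR w l') : l = l' :=
  LinearMap.ext (f := (show A.car →ₗ[ℚ] ℝ from l)) (g := l') h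

theorem evQ_mul (g : Γ) (w : A.car) (l : (dualQ A).car) :
    evQ w ((dualQ A).mul g l) = evQ (A.act g⁻¹ w) l := rfl

theorem evR_mul (g : Γ) (w : A.car) (l : (dualR A).car) :
    evR w ((dualR A).mul g l) = evR (A.act g⁻¹ w) l := rfl

theorem dualQ_fix {Δ : Subgroup Γ} {l : (dualQ A).car} :
    (dualQ A).Fix Δ l ↔ ∀ g ∈ Δ, ∀ w, evQ (A.act g w) l = evQ w l := by
  constructor
  · intro h g hg w
    have h1 := congrArg (evQ w) (h g⁻¹ (Δ.inv_mem hg))
    rw [evQ_mul, inv_inv] at h1
    exact h1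
  · intro h g hg
    apply dualQ_ext
    intro w
    rw [evQ_mul, h g⁻¹ (Δ.inv_mem hg)]

theorem dualR_fix {Δ : Subgroup Γ} {l : (dualR A).car} :
    (dualR A).Fix Δ l ↔ ∀ g ∈ Δ, ∀ w, evR (A.act g w) l = evR w l := by
  constructor
  · intro h g hg w
    have h1 := congrArg (evR w) (h g⁻¹ (Δ.inv_mem hg))
    rw [evR_mul, inv_inv] at h1
    exact h1
  · intro h g hg
    apply dualR_ext
    intro w
    rw [evR_mul, h g⁻¹ (Δ.inv_mem hg)]

/-- functionals that agree on a basis of the invariants -/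
theorem extR {Δ : Subgroup Γ} {κ : Type} {a : κ → A.car}
    (h : ∀ w : A.car, (Set.range fun g => A.mul g w).Finite) (ha : A.IsBasis Δ a)
    {l l' : (dualR A).car} (hl : (dualR A).Fix Δ l) (hl' : (dualR A).Fix Δ l')
    (he : ∀ j, evR (a j) l = evR (a j) l') : l = l' := by
  refine ext_inv (ρ := A.act) (Δ := Δ) (E := ℝ) (l := l) (l' := l') (orbs h Δ) (dualR_fix.1 hl)
    (dualR_fix.1 hl') fun w hw => ?_
  have h1 : w ∈ Submodule.span ℚ (Set.range a) := (ha.2 w).2 hw
  refine (LinearMap.eqOn_span (f := (show A.car →ₗ[ℚ] ℝ from l)) (g := l') ?_) h1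
  rintro _ ⟨j, rfl⟩
  exact he j

/-- functionals that agree on a basis of the invariants -/
theorem extQ {Δ : Subgroup Γ} {κ : Type} {a : κ → A.car}
    (h : ∀ w : A.car, (Set.range fun g => A.mul g w).Finite) (ha : A.IsBasis Δ a)
    {l l' : (dualQ A).car} (hl : (dualQ A).Fix Δ l) (hl' : (dualQ A).Fix Δ l')
    (he : ∀ j, evQ (a j) l = evQ (a j) l') : l = l' := by
  refine ext_inv (ρ := A.act) (Δ := Δ) (E := ℚ) (l := l) (l' := l') (orbs h Δ) (dualQ_fix.1 hl)
    (dualQ_fix.1 hl') fun w hw => ?_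
  have h1 : w ∈ Submodule.span ℚ (Set.range a) := (ha.2 w).2 hw
  refine (LinearMap.eqOn_span (f := (show A.car →ₗ[ℚ] ℚ from l)) (g := l') ?_) h1
  rintro _ ⟨j, rfl⟩
  exact he j

/-- sums of fixed elements -/
theorem fix_sum {k : Type} [Field k] {A : GVec k Γ} {Δ : Subgroup Γ} {κ : Type} [Fintype κ]
    {a : κ → A.car} (ha : ∀ j, A.Fix Δ (a j)) (c : κ → k) : A.Fix Δ (∑ j, c j • a j) := by
  have h1 : ∀ j, a j ∈ inv A.act Δ := fun j => ha j
  exact (Submodule.sum_mem _ fun j _ => Submodule.smul_mem _ (c j) (h1 j) :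
    (∑ j, c j • a j) ∈ inv A.act Δ)

/-- the dual basis -/
theorem exists_dual_basis {Δ : Subgroup Γ} {κ : Type} [Fintype κ] {a : κ → A.car}
    (h : ∀ w : A.car, (Set.range fun g => A.mul g w).Finite) (ha : A.IsBasis Δ a) :
    ∃ l : κ → (dualQ A).car, (dualQ A).IsBasis Δ l ∧
      ∀ i j, evQ (a i) (l j) = if i = j then 1 else 0 := by
  obtain ⟨b, hb⟩ := GVec.exists_basis ha
  have hex : ∀ j, ∃ l : A.car →ₗ[ℚ] ℚ, (∀ g ∈ Δ, ∀ w, l (A.act g w) = l w) ∧
      ∀ w : fx A.act Δ, l w = b.coord j w := fun j => exists_ext (orbs h Δ) (b.coord j)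
  choose l' hl1 hl2 using hex
  let l : κ → (dualQ A).car := l'
  have hfix : ∀ j, (dualQ A).Fix Δ (l j) := fun j => dualQ_fix.2 (hl1 j)
  have hdual : ∀ i j, evQ (a i) (l j) = if i = j then 1 else 0 := by
    intro i j
    rw [← hb i]
    refine (hl2 j (b i)).trans ?_
    rw [Basis.coord_apply, Basis.repr_self, Finsupp.single_apply]
  have hsum : ∀ (c : κ → ℚ) i, evQ (a i) (∑ j, c j • l j) = c i := by
    intro c i
    rw [map_sum, Finset.sum_eq_single i
      (fun j _ hj => by rw [map_smul, hdual, if_neg (Ne.symm hj), smul_zero])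
      (fun h => absurd (Finset.mem_univ _) h), map_smul, hdual, if_pos rfl, smul_eq_mul, mul_one]
  refine ⟨l, ⟨?_, fun x => ?_⟩, hdual⟩
  · rw [Fintype.linearIndependent_iff]
    intro c hc i
    have h1 := congrArg (evQ (a i)) hc
    rw [hsum, map_zero] at h1
    exact h1
  · constructor
    · intro hx
      obtain ⟨c, rfl⟩ := (Submodule.mem_span_range_iff_exists_fun ℚ).1 hx
      exact fix_sum hfix c
    · intro hx
      have h1 : x = ∑ j, evQ (a j) x • l j :=
        extQ h ha hx (fix_sum hfix _) fun i => by rw [hsum]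
      rw [h1]
      exact Submodule.sum_mem _ fun j _ => Submodule.smul_mem _ _ (Submodule.subset_span ⟨j, rfl⟩)

/-- a real functional in terms of the dual basis -/
theorem real_functional {Δ : Subgroup Γ} {κ : Type} [Fintype κ] {a : κ → A.car}
    (h : ∀ w : A.car, (Set.range fun g => A.mul g w).Finite) (ha : A.IsBasis Δ a)
    {l : κ → (dualQ A).car} (hl : (dualQ A).IsBasis Δ l)
    (hd : ∀ i j, evQ (a i) (l j) = if i = j then 1 else 0)
    {u : (dualR A).car} (hu : (dualR A).Fix Δ u) :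
    u = ∑ j, evR (a j) u • toRG (l j) := by
  have hf : ∀ j, (dualR A).Fix Δ (toRG (l j)) := by
    intro j
    refine dualR_fix.2 fun g hg w => ?_
    rw [evR_toRG, evR_toRG, dualQ_fix.1 (mem_basis hl j) g hg]
  refine extR h ha hu (fix_sum hf _) fun i => ?_
  rw [map_sum, Finset.sum_eq_single i
      (fun j _ hj => by rw [map_smul, evR_toRG, hd, if_neg (Ne.symm hj), Rat.cast_zero, smul_zero])
      (fun h => absurd (Finset.mem_univ _) h), map_smul, evR_toRG, hd, if_pos rfl, smul_eq_mul,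
      Rat.cast_one, mul_one]

end

/-- the basis of a product -/
theorem isBasis_prod {k : Type} [Field k] {A B : GVec k Γ} {Δ : Subgroup Γ} {κ κ' : Type}
    [Fintype κ] [Fintype κ']
    {a : κ → A.car} {b : κ' → B.car} (ha : A.IsBasis Δ a) (hb : B.IsBasis Δ b) :
    (prodG A B).IsBasis Δ (Sum.elim (fun j => (inlG (a j) : (prodG A B).car))
      (fun j => (inrG (b j) : (prodG A B).car))) := by
  constructor
  · rw [Fintype.linearIndependent_iff]
    intro c hc
    rw [Fintype.sum_sum_type] at hc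
    simp only [Sum.elim_inl, Sum.elim_inr] at hc
    have h1 := congrArg fstG hc
    have h2 := congrArg sndG hc
    rw [map_add, map_sum, map_sum, map_zero] at h1 h2
    simp only [map_smul, fst_inl, fst_inr, smul_zero, Finset.sum_const_zero, add_zero] at h1
    simp only [map_smul, snd_inl, snd_inr, smul_zero, Finset.sum_const_zero, zero_add] at h2
    rintro (j | j)
    · exact (Fintype.linearIndependent_iff.1 ha.1) _ h1 j
    · exact (Fintype.linearIndependent_iff.1 hb.1) _ h2 j
  · intro x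
    have hf : ∀ j, (prodG A B).Fix Δ (Sum.elim (fun j => (inlG (a j) : (prodG A B).car))
      (fun j => (inrG (b j) : (prodG A B).car)) j) := by
      rintro (j | j)
      · exact prodG_fix.2 ⟨mem_basis ha j, fix_zero _ _⟩
      · exact prodG_fix.2 ⟨fix_zero _ _, mem_basis hb j⟩
    constructor
    · intro hx
      obtain ⟨c, rfl⟩ := (Submodule.mem_span_range_iff_exists_fun k).1 hx
      exact fix_sum hf c
    · intro hx
      obtain ⟨c₁, h1⟩ := (Submodule.mem_span_range_iff_exists_fun k).1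
        ((ha.2 (fstG x)).2 (prodG_fix.1 hx).1)
      obtain ⟨c₂, h2⟩ := (Submodule.mem_span_range_iff_exists_fun k).1
        ((hb.2 (sndG x)).2 (prodG_fix.1 hx).2)
      rw [decomp x, ← h1, ← h2, map_sum, map_sum]
      refine Submodule.add_mem _ (Submodule.sum_mem _ fun j _ => ?_)
        (Submodule.sum_mem _ fun j _ => ?_)
      · rw [map_smul]
        exact Submodule.smul_mem _ _ (Submodule.subset_span ⟨Sum.inl j, rfl⟩)
      · rw [map_smul]
        exact Submodule.smul_mem _ _ (Submodule.subset_span ⟨Sum.inr j, rfl⟩)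

end

end Pool.Agent.H39.Ht
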